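import Mathlib

set_option autoImplicit false

namespace Pool.Agent.Results.MP_2af528_co.NoMinMaxBlock

/-- `P` is an interval partition of the poset `S`: a family of pairwise disjoint (nonempty)
intervals `[x,y]`, `x ≤ y`, whose union is `S`. -/
def IsIntervalPartition {S : Type} [PartialOrder S] (P : Set (Set S)) : Prop :=
  (∀ B ∈ P, ∃ x y : S, x ≤ y ∧ B = Set.Icc x y) ∧
  (∀ B ∈ P, ∀ B' ∈ P, B ≠ B' → Disjoint B B') ∧ ⋃₀ P = Set.univ

/-- An interval partition is optimum if it has the minimum number of blocks. -/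
def IsOptimum {S : Type} [PartialOrder S] (P : Set (Set S)) : Prop :=
  IsIntervalPartition P ∧ ∀ Q : Set (Set S), IsIntervalPartition Q → P.ncard ≤ Q.ncard

/-- The ground set of the example: the numbers `0, …, 11`. -/
structure E where
  val : Fin 12
deriving DecidableEq

/-- The strict upper sets of the example: `0` is the least element, `1,2,3` are the atoms and
`10, 11` the maximal elements. -/
def above : Fin 12 → List (Fin 12)
  | 0 => [1, 2, 3, 4, 5, 6, 7, 8, 9, 10, 11]
  | 1 => [4, 6, 10, 11]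
  | 2 => [5, 6, 7, 8, 9, 10, 11]
  | 3 => [6, 8, 9, 10, 11]
  | 4 => [11]
  | 5 => [10]
  | 6 => [10]
  | 7 => [10]
  | 8 => [11]
  | 9 => [11]
  | _ => []

/-- the order relation -/
def rel (a b : Fin 12) : Bool := a = b || (above a).contains b

instance : PartialOrder E where
  le a b := rel a.val b.val = true
  le_refl a := by
    show rel a.val a.val = true
    simp [rel]
  le_trans a b c h1 h2 := by
    have : ∀ a b c : Fin 12, rel a b = true → rel b c = true → rel a c = true := by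
      decide +kernel
    exact this a.val b.val c.val h1 h2
  le_antisymm a b h1 h2 := by
    have : ∀ a b : Fin 12, rel a b = true → rel b a = true → a = b := by decide +kernel
    have h := this a.val b.val h1 h2
    cases a; cases b; simp_all

instance : Fintype E := Fintype.ofEquiv (Fin 12) ⟨fun a => ⟨a⟩, fun a => a.val, fun _ => rfl, fun _ => rfl⟩

lemma le_def' (a b : E) : a ≤ b ↔ rel a.val b.val = true := Iff.rfl

instance : DecidableLE E := fun a b => decidable_of_iff _ (le_def' a b).symm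

/-- the element number `i` -/
def e (i : Fin 12) : E := ⟨i⟩

/-- the partition with three blocks -/
def Q₀ : Set (Set E) := {Set.Icc (e 2) (e 10), Set.Icc (e 3) (e 11), Set.Icc (e 0) (e 4)}

lemma Q₀_part : IsIntervalPartition Q₀ := by
  refine ⟨?_, ?_, ?_⟩
  · intro B hB
    simp only [Q₀, Set.mem_insert_iff, Set.mem_singleton_iff] at hB
    rcases hB with rfl | rfl | rfl
    · exact ⟨e 2, e 10, by decide, rfl⟩
    · exact ⟨e 3, e 11, by decide, rfl⟩
    · exact ⟨e 0, e 4, by decide, rfl⟩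
  · have h12 : ∀ z : E, ¬ ((e 2 ≤ z ∧ z ≤ e 10) ∧ (e 3 ≤ z ∧ z ≤ e 11)) := by decide
    have h13 : ∀ z : E, ¬ ((e 2 ≤ z ∧ z ≤ e 10) ∧ (e 0 ≤ z ∧ z ≤ e 4)) := by decide
    have h23 : ∀ z : E, ¬ ((e 3 ≤ z ∧ z ≤ e 11) ∧ (e 0 ≤ z ∧ z ≤ e 4)) := by decide
    intro B hB B' hB' hne
    simp only [Q₀, Set.mem_insert_iff, Set.mem_singleton_iff] at hB hB'
    rw [Set.disjoint_left]
    rcases hB with rfl | rfl | rfl <;> rcases hB' with rfl | rfl | rfl
    · exact absurd rfl hne
    · intro z h1 h2; exact h12 z ⟨h1, h2⟩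
    · intro z h1 h2; exact h13 z ⟨h1, h2⟩
    · intro z h1 h2; exact h12 z ⟨h2, h1⟩
    · exact absurd rfl hne
    · intro z h1 h2; exact h23 z ⟨h1, h2⟩
    · intro z h1 h2; exact h13 z ⟨h2, h1⟩
    · intro z h1 h2; exact h23 z ⟨h2, h1⟩
    · exact absurd rfl hne
  · have h : ∀ z : E, (e 2 ≤ z ∧ z ≤ e 10) ∨ (e 3 ≤ z ∧ z ≤ e 11) ∨ (e 0 ≤ z ∧ z ≤ e 4) := by
      decide
    rw [Set.eq_univ_iff_forall]
    intro z
    rcases h z with h | h | h
    · exact ⟨Set.Icc (e 2) (e 10), Or.inl rfl, h⟩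
    · exact ⟨Set.Icc (e 3) (e 11), Or.inr (Or.inl rfl), h⟩
    · exact ⟨Set.Icc (e 0) (e 4), Or.inr (Or.inr rfl), h⟩

lemma Q₀_card : Q₀.ncard ≤ 3 := by
  unfold Q₀
  refine (Set.ncard_insert_le _ _).trans ?_
  have := Set.ncard_insert_le (Set.Icc (e 3) (e 11)) {Set.Icc (e 0) (e 4)}
  rw [Set.ncard_singleton] at this
  omega

/-- a partition containing `[0, y]` has at least four blocks if there are three elements outside
of `[0, y]` such that all common lower bounds of two of them are in `[0, y]` -/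
lemma four {P : Set (Set E)} (hP : IsIntervalPartition P) {y a b c : E}
    (hB : Set.Icc (e 0) y ∈ P)
    (hay : ¬ a ≤ y) (hby : ¬ b ≤ y) (hcy : ¬ c ≤ y)
    (h0 : ∀ x : E, e 0 ≤ x)
    (hab : ∀ x : E, x ≤ a → x ≤ b → x ≤ y)
    (hac : ∀ x : E, x ≤ a → x ≤ c → x ≤ y)
    (hbc : ∀ x : E, x ≤ b → x ≤ c → x ≤ y) :
    4 ≤ P.ncard := by
  obtain ⟨h1, h2, h3⟩ := hP
  have hblock : ∀ v : E, ¬ v ≤ y → ∃ B ∈ P, v ∈ B ∧ B ≠ Set.Icc (e 0) y := by
    intro v hv
    have : v ∈ ⋃₀ P := by rw [h3]; trivial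
    obtain ⟨B, hB1, hB2⟩ := this
    refine ⟨B, hB1, hB2, ?_⟩
    rintro rfl
    exact hv hB2.2
  have hsep : ∀ v w : E, (∀ x : E, x ≤ v → x ≤ w → x ≤ y) →
      ∀ B ∈ P, v ∈ B → w ∈ B → B = Set.Icc (e 0) y := by
    intro v w hvw B hBP hv hw
    by_contra hne
    obtain ⟨x, z, hxz, rfl⟩ := h1 B hBP
    have hx' : x ∈ Set.Icc (e 0) y := ⟨h0 x, hvw x hv.1 hw.1⟩
    have hd := h2 _ hBP _ hB hne
    rw [Set.disjoint_left] at hd
    exact hd (Set.left_mem_Icc.2 hxz) hx'
  obtain ⟨A, hA1, hA2, hA3⟩ := hblock a hay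
  obtain ⟨B, hB1, hB2, hB3⟩ := hblock b hby
  obtain ⟨C, hC1, hC2, hC3⟩ := hblock c hcy
  have hAB : A ≠ B := by rintro rfl; exact hA3 (hsep a b hab A hA1 hA2 hB2)
  have hAC : A ≠ C := by rintro rfl; exact hA3 (hsep a c hac A hA1 hA2 hC2)
  have hBC : B ≠ C := by rintro rfl; exact hB3 (hsep b c hbc B hB1 hB2 hC2)
  have hfin : P.Finite := Set.toFinite P
  have hsub : ({Set.Icc (e 0) y, A, B, C} : Set (Set E)) ⊆ P := by
    intro D hD
    simp only [Set.mem_insert_iff, Set.mem_singleton_iff] at hD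
    rcases hD with rfl | rfl | rfl | rfl <;> assumption
  have hc := Set.ncard_le_ncard hsub hfin
  rw [Set.ncard_insert_of_notMem, Set.ncard_insert_of_notMem, Set.ncard_insert_of_notMem,
    Set.ncard_singleton] at hc
  · omega
  · simpa using hBC
  · simp only [Set.mem_insert_iff, Set.mem_singleton_iff, not_or]; exact ⟨hAB, hAC⟩
  · simp only [Set.mem_insert_iff, Set.mem_singleton_iff, not_or]
    exact ⟨hA3.symm, hB3.symm, hC3.symm⟩

/-- **A finite poset without optimum interval partition using a full interval.** There is a finite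
nonempty poset (with 12 elements) such that no optimum interval partition has a block `[x,y]` with
`x` minimal, `y` maximal and `x ≤ y`. -/
theorem result : ∃ (S : Type) (_ : Fintype S) (_ : Nonempty S) (_ : PartialOrder S),
    ∀ P : Set (Set S), IsOptimum P →
      ¬ ∃ x y : S, IsMin x ∧ IsMax y ∧ x ≤ y ∧ Set.Icc x y ∈ P := by
  refine ⟨E, inferInstance, ⟨e 0⟩, inferInstance, ?_⟩
  rintro P ⟨hP, hopt⟩ ⟨x, y, hx, hy, hxy, hB⟩
  have hle : P.ncard ≤ 3 := (hopt Q₀ Q₀_part).trans Q₀_card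
  have hx0 : x = e 0 := by
    have h : ∀ x : E, e 0 ≤ x := by decide
    exact le_antisymm (hx (h x)) (h x)
  subst hx0
  have hy' : y = e 10 ∨ y = e 11 := by
    have h : ∀ y : E, y ≤ e 10 ∨ y ≤ e 11 := by decide
    rcases h y with h | h
    · exact Or.inl (le_antisymm h (hy h))
    · exact Or.inr (le_antisymm h (hy h))
  have h4 : 4 ≤ P.ncard := by
    rcases hy' with rfl | rfl
    · exact four hP (a := e 4) (b := e 8) (c := e 9) hB (by decide) (by decide) (by decide)
        (by decide) (by decide) (by decide) (by decide)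
    · exact four hP (a := e 5) (b := e 6) (c := e 7) hB (by decide) (by decide) (by decide)
        (by decide) (by decide) (by decide) (by decide)
  omega

end Pool.Agent.Results.MP_2af528_co.NoMinMaxBlock
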